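import Mathlib
import Pool.Agent.W732.Ud.Stm

/-!
Montel's theorem on exhausting domains. The structure of the proof follows `montel_gen` of
W738/HS/Montel (copied from H471R3/BGMontel).
-/

set_option autoImplicit false

open Metric Set Filter Topology Complex

namespace Pool.Agent.W978.Ud

open Pool.Agent.W732.Ud

theorem main (h : S_lu) : S_mt := by
  intro E _ _ _ H U hE N M φ hd hb
  obtain ⟨oH, oU, hsubU, hexh⟩ := hE
  have _ : ProperSpace E := FiniteDimensional.proper ℂ E
  have _ : SecondCountableTopology E := inferInstance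
  -- the equi-Lipschitz estimate
  have hL : ∀ z ∈ H, ∃ K : ℝ, 0 < K ∧ ∃ δ : ℝ, 0 < δ ∧ ball z δ ⊆ H ∧
      ∀ᶠ n in atTop, ball z δ ⊆ U n ∧
        ∀ i, ∀ w ∈ ball z δ, ‖φ n i w - φ n i z‖ ≤ K * ‖w - z‖ := by
    intro z hz
    obtain ⟨δ, hδ, hsub⟩ := Metric.nhds_basis_closedBall.mem_iff.1 (oH.mem_nhds hz)
    refine ⟨(2 * |M| + 1) / δ, by positivity, δ, hδ, ball_subset_closedBall.trans hsub, ?_⟩
    filter_upwards [hexh _ hsub (isCompact_closedBall z δ)] with n hn
    have hn' : ball z δ ⊆ U n := ball_subset_closedBall.trans hn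
    refine ⟨hn', fun i w hw => ?_⟩
    have hmaps : MapsTo (φ n i) (ball z δ) (closedBall (φ n i z) (2 * |M|)) := by
      intro x hx
      rw [mem_closedBall, dist_eq_norm]
      have h1 := hb n i x (hn' hx)
      have h2 := hb n i z (hn' (mem_ball_self hδ))
      have h3 := norm_sub_le (φ n i x) (φ n i z)
      have h4 := le_abs_self M
      linarith
    have h4 := Complex.dist_le_div_mul_dist_of_mapsTo_ball ((hd n i).mono hn') hmaps hw
    rw [dist_eq_norm, dist_eq_norm] at h4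
    refine h4.trans ?_
    gcongr
    linarith
  -- values on a dense sequence
  set d : ℕ → E := TopologicalSpace.denseSeq E with hdd
  have hdense : DenseRange d := TopologicalSpace.denseRange_denseSeq E
  classical
  set x : ℕ → ℕ × Fin N → ℂ := fun j p => if d p.1 ∈ U j then φ j p.2 (d p.1) else 0 with hx
  have hcomp : IsCompact (Set.pi Set.univ fun _ : ℕ × Fin N => closedBall (0 : ℂ) |M|) :=
    isCompact_univ_pi fun k => isCompact_closedBall _ _
  have hxm : ∀ j, x j ∈ Set.pi Set.univ fun _ : ℕ × Fin N => closedBall (0 : ℂ) |M| := by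
    intro j k _
    simp only [hx]
    rw [mem_closedBall_zero_iff]
    split_ifs with hk
    · exact (hb j k.2 _ hk).trans (le_abs_self _)
    · simp
  obtain ⟨a, -, s, hs, hlim⟩ := hcomp.tendsto_subseq hxm
  have hev : ∀ p : ℕ → Prop, (∀ᶠ n in atTop, p n) → ∀ᶠ n in atTop, p (s n) :=
    fun p hp => hs.tendsto_atTop.eventually hp
  have hk : ∀ i k, d k ∈ H → CauchySeq fun j => φ (s j) i (d k) := by
    intro i k hk
    have h1 : Tendsto (fun j => x (s j) (k, i)) atTop (𝓝 (a (k, i))) :=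
      ((continuous_apply (k, i)).tendsto a).comp hlim
    have h2 : (fun j => x (s j) (k, i)) =ᶠ[atTop] fun j => φ (s j) i (d k) := by
      filter_upwards [hev _ (hexh {d k} (singleton_subset_iff.2 hk) isCompact_singleton)] with j hj
      simp only [hx, if_pos (singleton_subset_iff.1 hj)]
    exact (h1.congr' h2).cauchySeq
  have hcau : ∀ i, ∀ z ∈ H, CauchySeq fun j => φ (s j) i z := by
    intro i z hz
    obtain ⟨K, hK, δ, hδ, hsub, hLip⟩ := hL z hz
    obtain ⟨N₁, hN₁⟩ := eventually_atTop.1 (hev _ hLip)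
    rw [Metric.cauchySeq_iff']
    intro ε hε
    obtain ⟨k, hkz⟩ : ∃ k, d k ∈ ball z (min δ (ε / (3 * K))) :=
      hdense.exists_mem_open isOpen_ball ⟨z, mem_ball_self (by positivity)⟩
    have hkδ : d k ∈ ball z δ := ball_subset_ball (min_le_left _ _) hkz
    have hke : ‖d k - z‖ < ε / (3 * K) := by
      have := ball_subset_ball (min_le_right _ _) hkz
      rwa [mem_ball, dist_eq_norm] at this
    have hke' : K * ‖d k - z‖ < ε / 3 := by
      calc K * ‖d k - z‖ < K * (ε / (3 * K)) := by gcongr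
        _ = ε / 3 := by field_simp
    obtain ⟨N₂, hN₂⟩ := (Metric.cauchySeq_iff.1 (hk i k (hsub hkδ))) (ε / 3) (by positivity)
    refine ⟨max N₁ N₂, fun j hj => ?_⟩
    have h1 := (hN₁ j ((le_max_left _ _).trans hj)).2 i (d k) hkδ
    have h2 := (hN₁ (max N₁ N₂) (le_max_left _ _)).2 i (d k) hkδ
    have h3 := hN₂ j ((le_max_right _ _).trans hj) (max N₁ N₂) (le_max_right _ _)
    rw [dist_eq_norm] at h3 ⊢
    calc ‖φ (s j) i z - φ (s (max N₁ N₂)) i z‖
        = ‖-(φ (s j) i (d k) - φ (s j) i z) + (φ (s j) i (d k) - φ (s (max N₁ N₂)) i (d k))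
          + (φ (s (max N₁ N₂)) i (d k) - φ (s (max N₁ N₂)) i z)‖ := by congr 1; abel
      _ ≤ ‖-(φ (s j) i (d k) - φ (s j) i z)‖ + ‖φ (s j) i (d k) - φ (s (max N₁ N₂)) i (d k)‖
          + ‖φ (s (max N₁ N₂)) i (d k) - φ (s (max N₁ N₂)) i z‖ := norm_add₃_le
      _ < ε := by rw [norm_neg]; linarith
  have hex : ∀ (i : Fin N) (z : E), ∃ w : ℂ, z ∈ H →
      Tendsto (fun j => φ (s j) i z) atTop (𝓝 w) := by
    intro i z
    by_cases hz : z ∈ H
    · obtain ⟨w, hw⟩ := cauchySeq_tendsto_of_complete (hcau i z hz)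
      exact ⟨w, fun _ => hw⟩
    · exact ⟨0, fun h => absurd h hz⟩
  choose Φ hΦ using hex
  have hloc : ∀ i, TendstoLocallyUniformlyOn (fun j => φ (s j) i) (Φ i) atTop H := by
    intro i
    rw [Metric.tendstoLocallyUniformlyOn_iff]
    intro ε hε z hz
    obtain ⟨K, hK, δ, hδ, hsub, hLip⟩ := hL z hz
    refine ⟨ball z (min δ (ε / (3 * K))),
      mem_nhdsWithin_of_mem_nhds (ball_mem_nhds _ (by positivity)), ?_⟩
    have h1 := (Metric.tendsto_atTop.1 (hΦ i z hz)) (ε / 3) (by positivity)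
    obtain ⟨N₁, hN₁⟩ := h1
    have hLs := hev _ hLip
    filter_upwards [eventually_ge_atTop N₁, hLs] with j hj hjL w hw
    have hwδ : w ∈ ball z δ := ball_subset_ball (min_le_left _ _) hw
    have hwe : K * ‖w - z‖ ≤ ε / 3 := by
      have := ball_subset_ball (min_le_right _ _) hw
      rw [mem_ball, dist_eq_norm] at this
      calc K * ‖w - z‖ ≤ K * (ε / (3 * K)) := by gcongr
        _ = ε / 3 := by field_simp
    have h2 : ‖Φ i w - Φ i z‖ ≤ ε / 3 := by
      have h3 : Tendsto (fun j => ‖φ (s j) i w - φ (s j) i z‖) atTop (𝓝 ‖Φ i w - Φ i z‖) :=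
        ((hΦ i w (hsub hwδ)).sub (hΦ i z hz)).norm
      refine le_of_tendsto h3 ?_
      filter_upwards [hLs] with m hm
      exact (hm.2 i w hwδ).trans hwe
    have h4 := (hjL.2 i w hwδ).trans hwe
    have h5 := hN₁ j hj
    rw [dist_eq_norm] at h5
    rw [dist_comm, dist_eq_norm]
    calc ‖φ (s j) i w - Φ i w‖
        = ‖(φ (s j) i w - φ (s j) i z) + (φ (s j) i z - Φ i z) + -(Φ i w - Φ i z)‖ := by
          congr 1; abel
      _ ≤ ‖φ (s j) i w - φ (s j) i z‖ + ‖φ (s j) i z - Φ i z‖ + ‖-(Φ i w - Φ i z)‖ :=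
          norm_add₃_le
      _ < ε := by rw [norm_neg]; linarith
  refine ⟨s, Φ, hs, fun i => ?_, fun i z hz => ?_, fun i K hK hKc => ?_⟩
  · refine h E H oH (fun j => φ (s j) i) (Φ i) (fun z hz => ?_) (hloc i)
    obtain ⟨K, hK, δ, hδ, hsub, hLip⟩ := hL z hz
    refine ⟨ball z δ, ball_mem_nhds z hδ, ?_⟩
    filter_upwards [hev _ hLip] with n hn
    exact (hd (s n) i).mono (inter_subset_left.trans hn.1)
  · refine le_of_tendsto (hΦ i z hz).norm ?_
    filter_upwards [hev _ (hexh {z} (singleton_subset_iff.2 hz) isCompact_singleton)] with j hj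
    exact hb (s j) i z (singleton_subset_iff.1 hj)
  · exact (tendstoLocallyUniformlyOn_iff_forall_isCompact oH).1 (hloc i) K hK hKc

end Pool.Agent.W978.Ud
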